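import Pool.Agent.Cantor305.Iter

set_option autoImplicit false

open MeasureTheory Set Filter
open scoped ENNReal

namespace Pool.Agent.Results.MP_60620c_an.CantorSegments

open Pool.Agent.Cantor305

/-- the triadic Cantor set: the reals `∑ a_n 3 ^ (-n)`, `n ≥ 1`, with all `a_n ∈ {0, 2}`
(the index is shifted by one) -/
def Cantor : Set ℝ :=
  {x | ∃ a : ℕ → ℝ, (∀ n, a n = 0 ∨ a n = 2) ∧ HasSum (fun n => a n / 3 ^ (n + 1)) x}

/-- the closed segment of slope `s`, length `L` and midpoint `c` -/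
noncomputable def seg (c : ℝ × ℝ) (s L : ℝ) : Set (ℝ × ℝ) :=
  {p | ∃ r : ℝ, |r| ≤ L / 2 ∧
    p = (c.1 + r / Real.sqrt (1 + s ^ 2), c.2 + r * s / Real.sqrt (1 + s ^ 2))}

theorem cantorSet_sub : cantorSet ⊆ Cantor := by
  intro x hx
  rw [cantorSet_eq_zero_two_ofDigits] at hx
  obtain ⟨a, ha, rfl⟩ := hx
  refine ⟨fun n => ((a n : ℕ) : ℝ), fun n => ?_, ?_⟩
  · have h1 := ha n
    have h2 : (a n : ℕ) = 0 ∨ (a n : ℕ) = 2 := by
      have h3 : (a n : ℕ) ≠ 1 := fun h => h1 (Fin.ext h)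
      have h4 := (a n).2
      omega
    rcases h2 with h | h <;> simp [h]
  · have h1 := (Real.summable_ofDigitsTerm (digits := a)).hasSum
    have h2 : (fun n => Real.ofDigitsTerm a n) = fun n => ((a n : ℕ) : ℝ) / 3 ^ (n + 1) := by
      ext n
      simp [Real.ofDigitsTerm, div_eq_mul_inv]
    rw [← h2]
    exact h1

/-! ### the sequence of families -/

theorem exists_seq : ∃ (m : ℕ → ℕ) (F : ℕ → Finset (ℝ × ℝ)),
    (∀ k, ∀ t ∈ F k, Valid (m k) t) ∧ (∀ k, m k < m (k + 1)) ∧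
    ((⋃ t ∈ F 0, cv (m 0) t) = Om) ∧
    (∀ k, ∀ t' ∈ F (k + 1), ∃ t ∈ F k, bx (m (k + 1)) t' ⊆ bx (m k) t) ∧
    (∀ k, volume (⋃ t ∈ F (k + 1), nn (m (k + 1)) t) ≤ ENNReal.ofReal (1 / ((k : ℝ) + 1))) ∧
    (∀ k, volume ((⋃ t ∈ F k, cv (m k) t) \ ⋃ t ∈ F (k + 1), cv (m (k + 1)) t) ≤
      ENNReal.ofReal ((1 / 4) ^ (k + 1))) ∧
    (∀ k, ∀ t ∈ F (k + 1), ∀ t' ∈ F (k + 1), ∀ s b b' : ℝ, (s, b) ∈ bx (m (k + 1)) t →
      (s, b') ∈ bx (m (k + 1)) t' → |b - b'| ≤ 1 / ((k : ℝ) + 1)) := by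
  have hit : ∀ (x : {x : ℕ × Finset (ℝ × ℝ) // ∀ t ∈ x.2, Valid x.1 t}) (k : ℕ), _ :=
    fun x k => iter x.1.1 x.1.2 x.2 (ε := 1 / ((k : ℝ) + 1)) (η := (1 / 4) ^ (k + 1))
      (δ := 1 / ((k : ℝ) + 1)) (by positivity) (by positivity) (by positivity)
  choose m' hm' F' hV hN hI hC hS using hit
  have h0 : ∀ t ∈ (({(0, 0)} : Finset (ℝ × ℝ))), Valid 0 t := by
    intro t ht
    rw [Finset.mem_singleton] at ht
    subst ht
    exact ⟨good_zero 0, le_rfl, by simp [wd_zero]⟩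
  let st : ℕ → {x : ℕ × Finset (ℝ × ℝ) // ∀ t ∈ x.2, Valid x.1 t} :=
    fun k => Nat.rec ⟨(0, {(0, 0)}), h0⟩ (fun k x => ⟨(m' x k, F' x k), hV x k⟩) k
  refine ⟨fun k => (st k).1.1, fun k => (st k).1.2, fun k => (st k).2, fun k => hm' (st k) k, ?_,
    fun k => hN (st k) k, fun k => hI (st k) k, fun k => hC (st k) k, fun k => hS (st k) k⟩
  show (⋃ t ∈ ({(0, 0)} : Finset (ℝ × ℝ)), cv 0 t) = Om
  simp [cv_zero]

theorem bx_compact (m : ℕ) (t : ℝ × ℝ) : IsCompact (bx m t) := isCompact_Icc.prod isCompact_Icc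

theorem exists_limit : ∃ G : Set (ℝ × ℝ), IsCompact G ∧ (∀ q ∈ G, q.1 ∈ cantorSet) ∧
    (∀ q ∈ G, ∀ q' ∈ G, q.1 = q'.1 → q = q') ∧
    volume {p : ℝ × ℝ | (1 ≤ p.1 ∧ p.1 ≤ 2) ∧ ∃ q ∈ G, p.2 = q.1 * p.1 + q.2} = 0 ∧
    0 < volume {p : ℝ × ℝ | p ∈ Om ∧ ∃ q ∈ G, p.2 = q.1 * p.1 + q.2} := by
  obtain ⟨m, F, hV, hm, h0, hN, hI, hC, hS⟩ := exists_seq
  have hmk : ∀ k, k ≤ m k := by
    intro k
    induction k with
    | zero => exact Nat.zero_le _
    | succ k ih => have := hm k; omega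
  set G : ℕ → Set (ℝ × ℝ) := fun k => ⋃ t ∈ F k, bx (m k) t with hG
  have hGc : ∀ k, IsCompact (G k) := fun k => (F k).isCompact_biUnion fun t _ => bx_compact _ t
  have hGa : ∀ k, G (k + 1) ⊆ G k := by
    intro k q hq
    rw [hG, mem_iUnion₂] at hq
    obtain ⟨t', ht', hq⟩ := hq
    obtain ⟨t, ht, hsub⟩ := hN k t' ht'
    exact mem_iUnion₂.mpr ⟨t, ht, hsub hq⟩
  refine ⟨⋂ k, G k, ?_, ?_, ?_, ?_, ?_⟩
  · exact (hGc 0).of_isClosed_subset (isClosed_iInter fun k => (hGc k).isClosed)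
      (iInter_subset _ 0)
  · intro q hq
    rw [← isClosed_cantorSet.closure_eq, Metric.mem_closure_iff]
    intro ε hε
    obtain ⟨k, hk⟩ := (wd_tendsto.eventually_lt_const hε).exists
    obtain ⟨t, ht, hqt⟩ := mem_iUnion₂.mp (mem_iInter.mp hq k)
    refine ⟨t.1, (hV k t ht).1.mem, ?_⟩
    obtain ⟨⟨h1, h2⟩, _⟩ := hqt
    rw [Real.dist_eq, abs_of_nonneg (by linarith)]
    have : wd (m k) ≤ wd k := wd_anti (hmk k)
    linarith
  · intro q hq q' hq' hqq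
    have h1 : ∀ k : ℕ, |q.2 - q'.2| ≤ 1 / ((k : ℝ) + 1) := by
      intro k
      obtain ⟨t, ht, h2⟩ := mem_iUnion₂.mp (mem_iInter.mp hq (k + 1))
      obtain ⟨t', ht', h3⟩ := mem_iUnion₂.mp (mem_iInter.mp hq' (k + 1))
      refine hS k t ht t' ht' q.1 q.2 q'.2 h2 ?_
      rw [hqq]
      exact h3
    have h2 : |q.2 - q'.2| ≤ 0 :=
      ge_of_tendsto' tendsto_one_div_add_atTop_nhds_zero_nat h1
    have h3 : q.2 = q'.2 := by
      have := abs_nonpos_iff.mp h2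
      linarith
    exact Prod.ext hqq h3
  · apply le_antisymm _ (zero_le)
    have h1 : ∀ k : ℕ, volume {p : ℝ × ℝ | (1 ≤ p.1 ∧ p.1 ≤ 2) ∧
        ∃ q ∈ ⋂ k, G k, p.2 = q.1 * p.1 + q.2} ≤ ENNReal.ofReal (1 / ((k : ℝ) + 1)) := by
      intro k
      refine (measure_mono ?_).trans (hI k)
      rintro p ⟨⟨h2, h3⟩, q, hq, h4⟩
      obtain ⟨t, ht, ⟨h5, h6⟩, h7, h8⟩ := mem_iUnion₂.mp (mem_iInter.mp hq (k + 1))
      have hw := wd_pos (m (k + 1))
      refine mem_iUnion₂.mpr ⟨t, ht, ⟨h2, h3⟩, ?_, ?_⟩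
      · rw [h4]; nlinarith
      · rw [h4]; nlinarith
    have h2 : Tendsto (fun k : ℕ => ENNReal.ofReal (1 / ((k : ℝ) + 1))) atTop (nhds 0) := by
      have := ENNReal.tendsto_ofReal (tendsto_one_div_add_atTop_nhds_zero_nat (𝕜 := ℝ))
      rwa [ENNReal.ofReal_zero] at this
    exact ge_of_tendsto' h2 h1
  · set X : Set (ℝ × ℝ) := {p : ℝ × ℝ | p ∈ Om ∧ ∃ q ∈ ⋂ k, G k, p.2 = q.1 * p.1 + q.2} with hX
    have hcover : ∀ p ∈ Om, (∀ k, p ∈ ⋃ t ∈ F k, cv (m k) t) → p ∈ X := by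
      intro p hp hall
      refine ⟨hp, ?_⟩
      set K : ℕ → Set (ℝ × ℝ) := fun k => G k ∩ {q | p.2 = q.1 * p.1 + q.2} with hK
      have hcl : IsClosed {q : ℝ × ℝ | p.2 = q.1 * p.1 + q.2} :=
        isClosed_eq continuous_const (by fun_prop)
      have hne : (⋂ k, K k).Nonempty := by
        apply IsCompact.nonempty_iInter_of_sequence_nonempty_isCompact_isClosed K
        · exact fun k => inter_subset_inter_left _ (hGa k)
        · intro k
          obtain ⟨t, ht, _, h5, h6⟩ := mem_iUnion₂.mp (hall k)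
          have hw := wd_pos (m k)
          refine ⟨(t.1, p.2 - t.1 * p.1), mem_iUnion₂.mpr ⟨t, ht, ⟨le_rfl, ?_⟩, ?_, ?_⟩, ?_⟩
          · show t.1 ≤ t.1 + wd (m k)
            linarith
          · show t.2 ≤ p.2 - t.1 * p.1
            linarith
          · show p.2 - t.1 * p.1 ≤ t.2 + 12 * wd (m k)
            linarith
          · show p.2 = t.1 * p.1 + (p.2 - t.1 * p.1)
            ring
        · exact (hGc 0).inter_right hcl
        · exact fun k => (hGc k).isClosed.inter hcl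
      obtain ⟨q, hq⟩ := hne
      refine ⟨q, mem_iInter.mpr fun k => (mem_iInter.mp hq k).1, (mem_iInter.mp hq 0).2⟩
    have hsub : Om \ X ⊆ ⋃ k, ((⋃ t ∈ F k, cv (m k) t) \ ⋃ t ∈ F (k + 1), cv (m (k + 1)) t) := by
      rintro p ⟨hp, hnot⟩
      by_contra hcon
      apply hnot
      apply hcover p hp
      intro k
      induction k with
      | zero => rw [h0]; exact hp
      | succ k ih =>
        by_contra hk
        exact hcon (mem_iUnion.mpr ⟨k, ih, hk⟩)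
    have hvol : volume (Om \ X) ≤ ENNReal.ofReal (1 / 3) := by
      refine (measure_mono hsub).trans ((measure_iUnion_le _).trans ?_)
      have hgeo : HasSum (fun k : ℕ => ((1 : ℝ) / 4) ^ (k + 1)) (1 / 3) := by
        have e1 : (fun k : ℕ => ((1 : ℝ) / 4) ^ (k + 1)) = fun k => 1 / 4 * (1 / 4) ^ k := by
          ext k; rw [pow_succ]; ring
        have e2 : (1 : ℝ) / 3 = 1 / 4 * (1 - 1 / 4)⁻¹ := by norm_num
        rw [e1, e2]
        exact (hasSum_geometric_of_lt_one (r := (1 : ℝ) / 4) (by norm_num)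
          (by norm_num)).mul_left (1 / 4)
      calc ∑' k, volume ((⋃ t ∈ F k, cv (m k) t) \ ⋃ t ∈ F (k + 1), cv (m (k + 1)) t)
          ≤ ∑' k : ℕ, ENNReal.ofReal (((1 : ℝ) / 4) ^ (k + 1)) := ENNReal.tsum_le_tsum hC
        _ = ENNReal.ofReal (1 / 3) := by
            rw [← ENNReal.ofReal_tsum_of_nonneg (fun k => by positivity) hgeo.summable,
              hgeo.tsum_eq]
    rw [pos_iff_ne_zero]
    intro hX0
    have h1 : volume Om ≤ volume X + volume (Om \ X) := by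
      refine (measure_mono ?_).trans (measure_union_le _ _)
      intro p hp
      by_cases h : p ∈ X
      · exact Or.inl h
      · exact Or.inr ⟨hp, h⟩
    rw [hX0, zero_add, Om_vol] at h1
    have h2 := h1.trans hvol
    rw [ENNReal.ofReal_le_ofReal_iff (by norm_num)] at h2
    norm_num at h2

/-- **Answer to Q1: yes.**  There are a (compact) set `S` of slopes in the Cantor set and, for each
`s ∈ S`, a unit segment of slope `s` with midpoint `c s`, such that the union of these segments has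
measure zero, but the union of the doubled segments has positive measure; both unions are
compact. -/
theorem result : ∃ (S : Set ℝ) (c : ℝ → ℝ × ℝ), S ⊆ Cantor ∧ IsCompact S ∧
    IsCompact (⋃ s ∈ S, seg (c s) s 1) ∧ IsCompact (⋃ s ∈ S, seg (c s) s 2) ∧
    volume (⋃ s ∈ S, seg (c s) s 1) = 0 ∧ 0 < volume (⋃ s ∈ S, seg (c s) s 2) := by
  classical
  obtain ⟨G, hGc, hGC, hGu, hG0, hGpos⟩ := exists_limit
  set be : ℝ → ℝ := fun s => if h : ∃ b, (s, b) ∈ G then h.choose else 0 with hbe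
  have hbeG : ∀ q ∈ G, be q.1 = q.2 := by
    intro q hq
    have h : ∃ b, (q.1, b) ∈ G := ⟨q.2, hq⟩
    have h1 : be q.1 = h.choose := dif_pos h
    rw [h1]
    have h2 := hGu _ h.choose_spec q hq rfl
    exact congrArg Prod.snd h2
  set h : ℝ → ℝ := fun s => 1 / Real.sqrt (1 + s ^ 2) with hh
  have hsq : ∀ s : ℝ, 0 < Real.sqrt (1 + s ^ 2) := fun s => Real.sqrt_pos.mpr (by positivity)
  have hpos : ∀ s, 0 < h s := fun s => by rw [hh]; have := hsq s; positivity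
  have hle : ∀ s, h s ≤ 1 := by
    intro s
    rw [hh]
    show 1 / Real.sqrt (1 + s ^ 2) ≤ 1
    rw [div_le_one (hsq s)]
    rw [Real.one_le_sqrt]
    nlinarith [sq_nonneg s]
  have hge : ∀ s, 0 ≤ s → s ≤ 1 → 1 / 2 ≤ h s := by
    intro s hs0 hs1
    show 1 / 2 ≤ 1 / Real.sqrt (1 + s ^ 2)
    apply one_div_le_one_div_of_le (hsq s)
    rw [Real.sqrt_le_left (by norm_num)]
    nlinarith
  have hcont : Continuous h := by
    rw [hh]
    exact continuous_const.div (Real.continuous_sqrt.comp (by fun_prop)) fun s => (hsq s).ne'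
  set c : ℝ → ℝ × ℝ := fun s => (1 + h s / 2, s * (1 + h s / 2) + be s) with hc
  set Φ : (ℝ × ℝ) × ℝ → ℝ × ℝ := fun z =>
    (1 + h z.1.1 / 2 + z.2 * h z.1.1, z.1.1 * (1 + h z.1.1 / 2) + z.1.2 + z.2 * z.1.1 * h z.1.1)
    with hΦ
  have hΦc : Continuous Φ := by
    have h1 : Continuous fun z : (ℝ × ℝ) × ℝ => h z.1.1 := hcont.comp (by fun_prop)
    rw [hΦ]
    fun_prop
  have himg : ∀ L : ℝ, (⋃ s ∈ Prod.fst '' G, seg (c s) s L) =
      Φ '' (G ×ˢ Icc (-(L / 2)) (L / 2)) := by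
    intro L
    ext p
    rw [mem_iUnion₂]
    constructor
    · rintro ⟨_, ⟨q, hq, rfl⟩, r, hr, rfl⟩
      refine ⟨(q, r), ⟨hq, abs_le.mp hr⟩, ?_⟩
      rw [hΦ, hc]
      simp only [hbeG q hq, hh]
      ext
      · show _ = _
        ring
      · show _ = _
        ring
    · rintro ⟨⟨q, r⟩, ⟨hq, hr⟩, rfl⟩
      refine ⟨q.1, ⟨q, hq, rfl⟩, r, abs_le.mpr hr, ?_⟩
      rw [hΦ, hc]
      simp only [hbeG q hq, hh]
      ext
      · show _ = _
        ring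
      · show _ = _
        ring
  refine ⟨Prod.fst '' G, c, ?_, hGc.image continuous_fst, ?_, ?_, ?_, ?_⟩
  · rintro _ ⟨q, hq, rfl⟩
    exact cantorSet_sub (hGC q hq)
  · rw [himg]
    exact (hGc.prod isCompact_Icc).image hΦc
  · rw [himg]
    exact (hGc.prod isCompact_Icc).image hΦc
  · apply measure_mono_null _ hG0
    rw [himg]
    rintro _ ⟨⟨q, r⟩, ⟨hq, hr1, hr2⟩, rfl⟩
    have h1 := hpos q.1
    have h2 := hle q.1
    simp only at hr1 hr2
    refine ⟨⟨?_, ?_⟩, q, hq, ?_⟩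
    · show 1 ≤ 1 + h q.1 / 2 + r * h q.1
      nlinarith
    · show 1 + h q.1 / 2 + r * h q.1 ≤ 2
      nlinarith
    · show q.1 * (1 + h q.1 / 2) + q.2 + r * q.1 * h q.1 = q.1 * (1 + h q.1 / 2 + r * h q.1) + q.2
      ring
  · refine lt_of_lt_of_le hGpos (measure_mono ?_)
    rw [himg]
    rintro p ⟨⟨⟨h1, h2⟩, _⟩, q, hq, h3⟩
    have hs := cantorSet_subset_unitInterval (hGC q hq)
    have h4 := hge q.1 hs.1 hs.2
    have h5 := hpos q.1
    refine ⟨(q, (p.1 - (1 + h q.1 / 2)) / h q.1), ⟨hq, ?_, ?_⟩, ?_⟩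
    · show -(2 / 2) ≤ (p.1 - (1 + h q.1 / 2)) / h q.1
      rw [le_div_iff₀ h5]
      linarith
    · show (p.1 - (1 + h q.1 / 2)) / h q.1 ≤ 2 / 2
      rw [div_le_iff₀ h5]
      linarith
    · rw [hΦ]
      ext
      · show 1 + h q.1 / 2 + (p.1 - (1 + h q.1 / 2)) / h q.1 * h q.1 = p.1
        rw [div_mul_cancel₀ _ h5.ne']
        ring
      · show q.1 * (1 + h q.1 / 2) + q.2 + (p.1 - (1 + h q.1 / 2)) / h q.1 * q.1 * h q.1 = p.2
        rw [h3]
        field_simp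
        ring

end Pool.Agent.Results.MP_60620c_an.CantorSegments
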